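import Mathlib

set_option autoImplicit false
open MeasureTheory Set

namespace Pool.Agent.Results.MP_9210c2_an.DensityComparison

/-- Euclidean space `R^n` as a set with its topology and Lebesgue measure `volume`. -/
abbrev Rn (n : ℕ) := Fin n → ℝ

/-- `K` is open, bounded, convex, symmetric and nonempty. -/
structure IsSymBody {n : ℕ} (K : Set (Rn n)) : Prop where
  isOpen : IsOpen K
  bounded : Bornology.IsBounded K
  convex : Convex ℝ K
  symm : ∀ x ∈ K, -x ∈ K
  nonempty : K.Nonempty

/-- The copy `x + r K` of `K`. -/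
def copy {n : ℕ} (K : Set (Rn n)) (x : Rn n) (r : ℝ) : Set (Rn n) :=
  (fun k => x + r • k) '' K

/-- `c` has the covering property: for every compact `E` and every choice of positive radii
there are countably many pairwise disjoint copies `x + d x K`, centred in `E`, of total
volume at least `c |E|`. -/
def Admissible {n : ℕ} (K : Set (Rn n)) (c : ℝ) : Prop :=
  ∀ (E : Set (Rn n)) (d : Rn n → ℝ), IsCompact E → (∀ x ∈ E, 0 < d x) →
    ∃ S : Set (Rn n), S ⊆ E ∧ S.Countable ∧ S.PairwiseDisjoint (fun x => copy K x (d x)) ∧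
      ENNReal.ofReal c * volume E ≤ ∑' x : S, volume (copy K x (d x))

/-- The constant `c(K)`. -/
noncomputable def covConst {n : ℕ} (K : Set (Rn n)) : ℝ := sSup {c : ℝ | 0 ≤ c ∧ Admissible K c}

/-- The translates of `K` by the points `p + L z`, `p` in the finite set `P`, `z` an integer
vector, form a packing. -/
def IsPeriodicPacking {n : ℕ} (K : Set (Rn n)) (L : ℝ) (P : Finset (Rn n)) : Prop :=
  0 < L ∧ ∀ p ∈ P, ∀ q ∈ P, ∀ z : Fin n → ℤ, (p ≠ q ∨ z ≠ 0) →
    Disjoint (copy K p 1) (copy K (fun i => q i + L * z i) 1)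

/-- The translative packing density of `K`: the supremum of the densities of periodic
packings by translates of `K`. -/
noncomputable def packingDensity {n : ℕ} (K : Set (Rn n)) : ℝ :=
  sSup {D : ℝ | ∃ (L : ℝ) (P : Finset (Rn n)), IsPeriodicPacking K L P ∧
    D = P.card * (volume K).toReal / L ^ n}

namespace IsSymBody

variable {n : ℕ} {K : Set (Rn n)} (h : IsSymBody K)

include h

lemma zero_mem : (0 : Rn n) ∈ K := by
  obtain ⟨x, hx⟩ := h.nonempty
  have := h.convex hx (h.symm x hx) (a := 1 / 2) (b := 1 / 2) (by norm_num) (by norm_num)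
    (by norm_num)
  simpa using this

lemma mem_nhds : K ∈ nhds (0 : Rn n) := h.isOpen.mem_nhds h.zero_mem

lemma absorbent : Absorbent ℝ K := absorbent_nhds_zero h.mem_nhds

lemma gauge_lt_one (x : Rn n) : gauge K x < 1 ↔ x ∈ K := by
  have := setOfPred_gauge_lt_one_eq_self_of_isOpen h.convex h.zero_mem h.isOpen
  constructor
  · intro hx
    have h2 : x ∈ {x | gauge K x < 1} := hx
    rwa [this] at h2
  · intro hx
    rw [← this] at hx
    exact hx

lemma gauge_add (x y : Rn n) : gauge K (x + y) ≤ gauge K x + gauge K y :=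
  gauge_add_le h.convex h.absorbent x y

lemma gauge_neg' (x : Rn n) : gauge K (-x) = gauge K x := gauge_neg h.symm x

lemma gauge_comm (x y : Rn n) : gauge K (x - y) = gauge K (y - x) := by
  rw [← h.gauge_neg', neg_sub]

lemma gauge_tri (x y z : Rn n) : gauge K (x - z) ≤ gauge K (x - y) + gauge K (y - z) := by
  have := h.gauge_add (x - y) (y - z)
  rwa [sub_add_sub_cancel] at this

lemma gauge_smul' {a : ℝ} (ha : 0 ≤ a) (x : Rn n) : gauge K (a • x) = a * gauge K x := by
  rw [gauge_smul_of_nonneg ha, smul_eq_mul]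

lemma gauge_cont : Continuous (gauge K) := continuous_gauge h.convex h.mem_nhds

lemma mem_copy {x y : Rn n} {r : ℝ} (hr : 0 < r) : y ∈ copy K x r ↔ gauge K (y - x) < r := by
  constructor
  · rintro ⟨k, hk, rfl⟩
    have h1 := (h.gauge_lt_one k).2 hk
    simp only [add_sub_cancel_left]
    rw [h.gauge_smul' hr.le]
    calc r * gauge K k < r * 1 := mul_lt_mul_of_pos_left h1 hr
      _ = r := mul_one r
  · intro hy
    refine ⟨r⁻¹ • (y - x), ?_, ?_⟩
    · rw [← h.gauge_lt_one, h.gauge_smul' (inv_nonneg.2 hr.le), inv_mul_lt_iff₀ hr, mul_one]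
      exact hy
    · simp only
      rw [smul_smul, mul_inv_cancel₀ hr.ne', one_smul, add_sub_cancel]

lemma copy_open (x : Rn n) {r : ℝ} (hr : 0 < r) : IsOpen (copy K x r) := by
  have : copy K x r = {y | gauge K (y - x) < r} := by
    ext y; exact h.mem_copy hr
  rw [this]
  exact isOpen_lt (h.gauge_cont.comp (continuous_id.sub continuous_const)) continuous_const

lemma disjoint_of {x y : Rn n} {r s : ℝ} (hr : 0 < r) (hs : 0 < s)
    (hxy : r + s ≤ gauge K (x - y)) : Disjoint (copy K x r) (copy K y s) := by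
  rw [Set.disjoint_left]
  intro w hw1 hw2
  rw [h.mem_copy hr] at hw1
  rw [h.mem_copy hs] at hw2
  have := h.gauge_tri x w y
  rw [h.gauge_comm x w] at this
  linarith

lemma le_of_disjoint {x y : Rn n} {r s : ℝ} (hr : 0 < r) (hs : 0 < s)
    (hd : Disjoint (copy K x r) (copy K y s)) : r + s ≤ gauge K (x - y) := by
  by_contra hc
  push Not at hc
  rw [Set.disjoint_left] at hd
  have hrs : 0 < r + s := by linarith
  apply hd (a := x + (r / (r + s)) • (y - x))
  · rw [h.mem_copy hr, add_sub_cancel_left, h.gauge_smul' (by positivity), h.gauge_comm]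
    rw [div_mul_eq_mul_div, div_lt_iff₀ hrs]
    exact mul_lt_mul_of_pos_left hc hr
  · rw [h.mem_copy hs]
    have : x + (r / (r + s)) • (y - x) - y = (s / (r + s)) • (x - y) := by
      have e : s / (r + s) = 1 - r / (r + s) := by field_simp; ring
      rw [e]
      module
    rw [this, h.gauge_smul' (by positivity), div_mul_eq_mul_div, div_lt_iff₀ hrs]
    exact mul_lt_mul_of_pos_left hc hs

lemma vol_copy (x : Rn n) {r : ℝ} (hr : 0 ≤ r) :
    volume (copy K x r) = ENNReal.ofReal (r ^ n) * volume K := by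
  have : copy K x r = (fun y => x + y) '' ((fun k : Rn n => r • k) '' K) := by
    unfold copy
    rw [Set.image_image]
  rw [this, Set.image_add_left, measure_preimage_add]
  have h2 := Measure.addHaar_smul (volume : Measure (Rn n)) r K
  rw [← Set.image_smul] at h2
  rw [h2]
  simp [abs_of_nonneg (pow_nonneg hr n)]

lemma vol_pos : 0 < volume K := h.isOpen.measure_pos volume h.nonempty

lemma vol_lt_top : volume K < ⊤ := h.bounded.measure_lt_top

end IsSymBody



/-- A lattice translate used in the averaging argument. -/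
def pt {n : ℕ} (s L : ℝ) (p : Rn n) (z : Fin n → ℤ) : Rn n := fun i => s * (p i + L * z i)

lemma pt_sep {n : ℕ} {K : Set (Rn n)} (h : IsSymBody K) {L : ℝ} {P : Finset (Rn n)}
    (hP : IsPeriodicPacking K L P) {s : ℝ} (hs : 0 < s) {p q : Rn n} (hp : p ∈ P) (hq : q ∈ P)
    {z w : Fin n → ℤ} (hne : (p, z) ≠ (q, w)) (t : Rn n) :
    2 * s ≤ gauge K ((t + pt s L p z) - (t + pt s L q w)) := by
  have hcond : p ≠ q ∨ (w - z) ≠ 0 := by
    by_contra hc
    push Not at hc
    apply hne
    rw [hc.1, Prod.mk.injEq]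
    exact ⟨rfl, (sub_eq_zero.1 hc.2).symm⟩
  have hd := hP.2 p hp q hq (w - z) hcond
  have h2 := h.le_of_disjoint one_pos one_pos hd
  have e : (t + pt s L p z) - (t + pt s L q w) =
      s • (p - fun i => q i + L * ((w - z) i : ℤ)) := by
    funext i
    simp only [pt, Pi.add_apply, Pi.sub_apply, Pi.smul_apply, smul_eq_mul]
    push_cast
    ring
  rw [e, h.gauge_smul' hs.le]
  nlinarith

lemma averaging {n : ℕ} {K : Set (Rn n)} (h : IsSymBody K) {L : ℝ} {P : Finset (Rn n)}
    (hP : IsPeriodicPacking K L P) {F : Set (Rn n)} (hF : MeasurableSet F)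
    (hb : Bornology.IsBounded F) {s : ℝ} (hs : 0 < s) :
    ∃ Y : Finset (Rn n), (∀ y ∈ Y, y ∈ F) ∧
      (∀ y ∈ Y, ∀ y' ∈ Y, y ≠ y' → 2 * s ≤ gauge K (y - y')) ∧
      (P.card : ℝ) * (volume F).toReal ≤ Y.card * (s * L) ^ n := by
  classical
  have hL : 0 < L := hP.1
  have hsL : 0 < s * L := mul_pos hs hL
  -- bounds
  obtain ⟨M, hM⟩ : ∃ M : ℤ, ∀ x ∈ F, ∀ p ∈ P, ∀ i,
      -M ≤ ⌊(x i - s * p i) / (s * L)⌋ ∧ ⌊(x i - s * p i) / (s * L)⌋ ≤ M := by
    obtain ⟨R, hR⟩ := hb.exists_norm_le
    obtain ⟨R', hR'⟩ := P.finite_toSet.isBounded.exists_norm_le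
    refine ⟨⌈(R + s * R') / (s * L)⌉ + 1, fun x hx p hp i => ?_⟩
    have h1 : |x i| ≤ R := by
      have := norm_le_pi_norm x i
      rw [Real.norm_eq_abs] at this
      exact this.trans (hR x hx)
    have h2 : |p i| ≤ R' := by
      have := norm_le_pi_norm p i
      rw [Real.norm_eq_abs] at this
      exact this.trans (hR' p hp)
    have h3 : |x i - s * p i| ≤ R + s * R' := by
      calc |x i - s * p i| ≤ |x i| + |s * p i| := abs_sub _ _
        _ = |x i| + s * |p i| := by rw [abs_mul, abs_of_pos hs]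
        _ ≤ R + s * R' := by gcongr
    have h4 : |(x i - s * p i) / (s * L)| ≤ (R + s * R') / (s * L) := by
      rw [abs_div, abs_of_pos hsL]
      gcongr
    rw [abs_le] at h4
    have h5 := Int.le_ceil ((R + s * R') / (s * L))
    constructor
    · rw [Int.le_floor]
      push_cast
      linarith [h4.1]
    · rw [← Int.cast_le (R := ℝ)]
      push_cast
      linarith [h4.2, Int.floor_le ((x i - s * p i) / (s * L))]
  set Z : Finset (Fin n → ℤ) := Fintype.piFinset (fun _ => Finset.Icc (-M) M) with hZ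
  set cell : Set (Rn n) := Set.pi Set.univ (fun _ => Set.Ico (0 : ℝ) (s * L)) with hcell
  have hcellm : MeasurableSet cell := MeasurableSet.univ_pi fun _ => measurableSet_Ico
  have hcellv : volume cell = ENNReal.ofReal ((s * L) ^ n) := by
    rw [hcell, Real.volume_pi_Ico]
    simp [ENNReal.ofReal_pow hsL.le]
  have hcellpos : 0 < volume cell := by
    rw [hcellv]; exact ENNReal.ofReal_pos.2 (by positivity)
  have hcelltop : volume cell ≠ ⊤ := by rw [hcellv]; exact ENNReal.ofReal_ne_top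
  -- the counting function
  set N : Rn n → ENNReal := fun t =>
    ∑ q ∈ P ×ˢ Z, Set.indicator ((fun t => t + pt s L q.1 q.2) ⁻¹' F) (fun _ => (1 : ENNReal)) t
    with hN
  have hmeas : ∀ q : Rn n × (Fin n → ℤ),
      MeasurableSet ((fun t : Rn n => t + pt s L q.1 q.2) ⁻¹' F) :=
    fun q => (measurable_add_const _) hF
  have hint : ∫⁻ t in cell, N t = ∑ q ∈ P ×ˢ Z,
      volume ((fun t : Rn n => t + pt s L q.1 q.2) ⁻¹' F ∩ cell) := by
    rw [hN, lintegral_finsetSum]
    · refine Finset.sum_congr rfl fun q _ => ?_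
      rw [lintegral_indicator (hmeas q), Measure.restrict_restrict (hmeas q)]
      simp
    · intro q _
      exact Measurable.indicator measurable_const (hmeas q)
  have hcover : ∀ p ∈ P, volume F ≤ ∑ z ∈ Z,
      volume ((fun t : Rn n => t + pt s L p z) ⁻¹' F ∩ cell) := by
    intro p hp
    have h1 : F ⊆ ⋃ z ∈ Z, (F ∩ (fun x => x + -pt s L p z) ⁻¹' cell) := by
      intro x hx
      refine Set.mem_biUnion (x := fun i => ⌊(x i - s * p i) / (s * L)⌋) ?_ ⟨hx, ?_⟩
      · simp only [hZ, Finset.mem_coe, Fintype.mem_piFinset, Finset.mem_Icc]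
        intro i
        exact hM x hx p hp i
      · simp only [Set.mem_preimage, hcell, Set.mem_pi, Set.mem_univ, forall_true_left, pt,
          Pi.add_apply, Pi.neg_apply, Set.mem_Ico]
        intro i
        have f1 := Int.floor_le ((x i - s * p i) / (s * L))
        have f2 := Int.lt_floor_add_one ((x i - s * p i) / (s * L))
        rw [le_div_iff₀ hsL] at f1
        rw [div_lt_iff₀ hsL] at f2
        constructor <;> nlinarith
    calc volume F ≤ volume (⋃ z ∈ Z, (F ∩ (fun x => x + -pt s L p z) ⁻¹' cell)) :=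
          measure_mono h1
      _ ≤ ∑ z ∈ Z, volume (F ∩ (fun x => x + -pt s L p z) ⁻¹' cell) :=
          measure_biUnion_finset_le _ _
      _ = ∑ z ∈ Z, volume ((fun t : Rn n => t + pt s L p z) ⁻¹' F ∩ cell) := by
          refine Finset.sum_congr rfl fun z _ => ?_
          rw [← measure_preimage_add_right volume (pt s L p z)]
          congr 1
          ext t
          simp
  have htot : (P.card : ENNReal) * volume F ≤ ∫⁻ t in cell, N t := by
    rw [hint, Finset.sum_product]
    calc (P.card : ENNReal) * volume F = ∑ p ∈ P, volume F := by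
          rw [Finset.sum_const, nsmul_eq_mul]
      _ ≤ _ := Finset.sum_le_sum hcover
  have hfin : ∫⁻ t in cell, N t ≠ ⊤ := by
    rw [hint]
    refine ENNReal.sum_ne_top.2 fun q _ => ?_
    exact ne_top_of_le_ne_top hcelltop (measure_mono Set.inter_subset_right)
  obtain ⟨t, -, ht⟩ := exists_setLAverage_le hcellpos.ne' hcellm.nullMeasurableSet hfin
  set W := (P ×ˢ Z).filter (fun q => t + pt s L q.1 q.2 ∈ F) with hW
  have hNt : N t = (W.card : ENNReal) := by
    simp only [hN, hW, Set.indicator, Set.mem_preimage]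
    rw [Finset.sum_ite]
    simp
  have hinj : Set.InjOn (fun q : Rn n × (Fin n → ℤ) => t + pt s L q.1 q.2) W := by
    intro a ha b hb hab
    by_contra hne
    simp only [hW, Finset.coe_filter, Finset.mem_product, Set.mem_ofPred_eq] at ha hb
    have := pt_sep h hP hs ha.1.1 hb.1.1 (z := a.2) (w := b.2) (by simpa using hne) t
    simp only at hab
    rw [hab, sub_self, gauge_zero] at this
    linarith
  refine ⟨W.image (fun q => t + pt s L q.1 q.2), ?_, ?_, ?_⟩
  · intro y hy
    rw [Finset.mem_image] at hy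
    obtain ⟨q, hq, rfl⟩ := hy
    rw [hW, Finset.mem_filter] at hq
    exact hq.2
  · intro y hy y' hy' hne
    rw [Finset.mem_image] at hy hy'
    obtain ⟨q, hq, rfl⟩ := hy
    obtain ⟨q', hq', rfl⟩ := hy'
    rw [hW, Finset.mem_filter, Finset.mem_product] at hq hq'
    refine pt_sep h hP hs hq.1.1 hq'.1.1 (z := q.2) (w := q'.2) ?_ t
    intro he
    apply hne
    have : q = q' := by simpa using he
    rw [this]
  · rw [Finset.card_image_of_injOn hinj]
    rw [hNt, setLAverage_eq] at ht
    have h1 : (P.card : ENNReal) * volume F ≤ (W.card : ENNReal) * volume cell := by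
      refine htot.trans ?_
      rwa [ENNReal.div_le_iff hcellpos.ne' hcelltop] at ht
    rw [hcellv] at h1
    have h2 := ENNReal.toReal_mono (ENNReal.mul_ne_top (ENNReal.natCast_ne_top _)
      ENNReal.ofReal_ne_top) h1
    rw [ENNReal.toReal_mul, ENNReal.toReal_mul, ENNReal.toReal_natCast, ENNReal.toReal_natCast,
      ENNReal.toReal_ofReal (by positivity)] at h2
    exact h2



lemma le_of_forall_pos {f : ℝ → ℝ} (hf : Continuous f) {a : ℝ} (h : ∀ ε > 0, a ≤ f ε) :
    a ≤ f 0 := by
  have h1 : Filter.Tendsto f (nhdsWithin 0 (Set.Ioi 0)) (nhds (f 0)) :=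
    hf.continuousWithinAt.tendsto
  exact ge_of_tendsto h1 (eventually_nhdsWithin_of_forall h)

lemma exists_rad {n : ℕ} {K : Set (Rn n)} (h : IsSymBody K) :
    ∃ r : ℝ, 0 < r ∧ ∀ k ∈ K, ∀ i, |k i| < r := by
  obtain ⟨R, hR⟩ := h.bounded.exists_norm_le
  refine ⟨|R| + 1, by positivity, fun k hk i => ?_⟩
  have h1 := norm_le_pi_norm k i
  rw [Real.norm_eq_abs] at h1
  have h2 := hR k hk
  have h3 := le_abs_self R
  linarith

/-- The cube `[0, R]^n`. -/
def box (n : ℕ) (R : ℝ) : Set (Rn n) := Set.pi Set.univ (fun _ => Set.Icc (0 : ℝ) R)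

lemma box_vol (n : ℕ) {R : ℝ} (hR : 0 ≤ R) : volume (box n R) = ENNReal.ofReal (R ^ n) := by
  rw [box, Set.pi_univ_Icc, Real.volume_Icc_pi]
  simp [ENNReal.ofReal_pow hR]

lemma box_compact (n : ℕ) (R : ℝ) : IsCompact (box n R) := isCompact_univ_pi fun _ => isCompact_Icc

lemma iUnion_vol {n : ℕ} {K : Set (Rn n)} {r : ℝ}
    (hr : ∀ k ∈ K, ∀ i, |k i| < r) (hr0 : 0 < r) {R : ℝ} (hR : 0 ≤ R) {S : Set (Rn n)}
    (hS : S ⊆ box n R) {s : ℝ} (hs : 0 < s) :
    volume (⋃ x ∈ S, copy K x s) ≤ ENNReal.ofReal ((R + 2 * r * s) ^ n) := by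
  have h1 : (⋃ x ∈ S, copy K x s) ⊆ Set.pi Set.univ (fun _ => Set.Ioo (-(r * s)) (R + r * s)) := by
    intro y hy
    simp only [Set.mem_iUnion] at hy
    obtain ⟨x, hx, k, hk, rfl⟩ := hy
    have hx' := hS hx
    simp only [box, Set.mem_pi, Set.mem_univ, forall_true_left, Set.mem_Icc] at hx'
    simp only [Set.mem_pi, Set.mem_univ, forall_true_left, Set.mem_Ioo, Pi.add_apply,
      Pi.smul_apply, smul_eq_mul]
    intro i
    have h2 := abs_lt.1 (hr k hk i)
    have h3 := hx' i
    constructor <;> nlinarith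
  refine (measure_mono h1).trans ?_
  rw [Real.volume_pi_Ioo]
  simp only [Finset.prod_const, Finset.card_univ, Fintype.card_fin]
  have e : R + r * s - -(r * s) = R + 2 * r * s := by ring
  rw [e, ENNReal.ofReal_pow (by positivity)]

lemma card_bound {n : ℕ} {K : Set (Rn n)} (h : IsSymBody K) {r : ℝ}
    (hr : ∀ k ∈ K, ∀ i, |k i| < r) (hr0 : 0 < r) {R : ℝ} (hR : 0 ≤ R) {S : Finset (Rn n)}
    (hS : (S : Set (Rn n)) ⊆ box n R) {s : ℝ} (hs : 0 < s)
    (hd : (S : Set (Rn n)).PairwiseDisjoint (fun x => copy K x s)) :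
    (S.card : ℝ) * (s ^ n * (volume K).toReal) ≤ (R + 2 * r * s) ^ n := by
  have h1 := iUnion_vol hr hr0 hR hS hs
  have h2 : volume (⋃ x ∈ S, copy K x s) = ∑ x ∈ S, volume (copy K x s) :=
    measure_biUnion_finset hd (fun x _ => (h.copy_open x hs).measurableSet)
  simp only [Finset.mem_coe] at h1
  rw [h2] at h1
  simp only [h.vol_copy _ hs.le, Finset.sum_const, nsmul_eq_mul] at h1
  have h3 := ENNReal.toReal_mono ENNReal.ofReal_ne_top h1
  rw [ENNReal.toReal_mul, ENNReal.toReal_mul, ENNReal.toReal_natCast,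
    ENNReal.toReal_ofReal (by positivity), ENNReal.toReal_ofReal (by positivity)] at h3
  exact h3

lemma density_le_one {n : ℕ} {K : Set (Rn n)} (h : IsSymBody K) {L : ℝ} {P : Finset (Rn n)}
    (hP : IsPeriodicPacking K L P) : (P.card : ℝ) * (volume K).toReal ≤ L ^ n := by
  obtain ⟨r, hr0, hr⟩ := exists_rad h
  have hL := hP.1
  have key : ∀ ε > 0, (P.card : ℝ) * (volume K).toReal ≤
      (fun ε : ℝ => (1 + 2 * r * ε) ^ n * L ^ n) ε := by
    intro ε hε
    have hR : 0 < 1 / ε := by positivity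
    obtain ⟨Y, hY1, hY2, hY3⟩ := averaging h hP
      (box_compact n (1 / ε)).measurableSet (box_compact n (1 / ε)).isBounded one_pos
    rw [box_vol n hR.le, ENNReal.toReal_ofReal (by positivity)] at hY3
    have h4 := card_bound h hr hr0 hR.le (S := Y) (fun y hy => hY1 y hy) one_pos (by
      intro y hy y' hy' hne
      exact h.disjoint_of one_pos one_pos (by linarith [hY2 y hy y' hy' hne]))
    simp only [one_pow, one_mul, mul_one] at h4 hY3
    have hV : 0 ≤ (volume K).toReal := ENNReal.toReal_nonneg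
    have h5 : (P.card : ℝ) * (volume K).toReal * (1 / ε) ^ n ≤ (1 / ε + 2 * r) ^ n * L ^ n := by
      calc (P.card : ℝ) * (volume K).toReal * (1 / ε) ^ n
          = ((P.card : ℝ) * (1 / ε) ^ n) * (volume K).toReal := by ring
        _ ≤ (Y.card * L ^ n) * (volume K).toReal := mul_le_mul_of_nonneg_right hY3 hV
        _ = (Y.card * (volume K).toReal) * L ^ n := by ring
        _ ≤ _ := mul_le_mul_of_nonneg_right h4 (by positivity)
    have h6 : (1 / ε + 2 * r) ^ n = (1 + 2 * r * ε) ^ n * (1 / ε) ^ n := by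
      rw [← mul_pow]
      congr 1
      field_simp
    rw [h6] at h5
    have h7 : 0 < (1 / ε) ^ n := by positivity
    have h8 : (P.card : ℝ) * (volume K).toReal * (1 / ε) ^ n ≤
        ((1 + 2 * r * ε) ^ n * L ^ n) * (1 / ε) ^ n := by linarith
    exact le_of_mul_le_mul_right h8 h7
  have := le_of_forall_pos (by fun_prop) key
  simpa using this

lemma bddAbove_densities {n : ℕ} {K : Set (Rn n)} (h : IsSymBody K) :
    BddAbove {D : ℝ | ∃ (L : ℝ) (P : Finset (Rn n)), IsPeriodicPacking K L P ∧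
      D = P.card * (volume K).toReal / L ^ n} := by
  refine ⟨1, ?_⟩
  rintro D ⟨L, P, hP, rfl⟩
  have := density_le_one h hP
  have hL : 0 < L ^ n := pow_pos hP.1 n
  rw [div_le_one hL]
  exact this

lemma admissible_le {n : ℕ} {K : Set (Rn n)} (h : IsSymBody K) {c : ℝ} (hc0 : 0 ≤ c)
    (hc : Admissible K c) : c ≤ packingDensity K := by
  obtain ⟨r, hr0, hr⟩ := exists_rad h
  have key : ∀ ε > 0, c ≤ (fun ε : ℝ => packingDensity K * (1 + 2 * r * ε) ^ n) ε := by
    intro ε hε
    have hR : 0 < 1 / ε := by positivity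
    obtain ⟨S, hSE, hSc, hSd, hSv⟩ := hc (box n (1 / ε)) (fun _ => 1) (box_compact n _)
      (fun _ _ => one_pos)
    have hmeas : ∀ x ∈ S, MeasurableSet (copy K x 1) :=
      fun x _ => (h.copy_open x one_pos).measurableSet
    have hun : volume (⋃ x ∈ S, copy K x 1) = ∑' x : S, volume (copy K (x : Rn n) 1) :=
      measure_biUnion hSc hSd hmeas
    have hub := iUnion_vol hr hr0 hR.le hSE one_pos
    have hfin : S.Finite := by
      by_contra hinf
      have : Infinite S := Set.infinite_coe_iff.2 hinf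
      rw [hun] at hub
      simp only [h.vol_copy _ zero_le_one] at hub
      rw [ENNReal.tsum_const_eq_top_of_ne_zero (by simp [h.vol_pos.ne'])] at hub
      exact absurd hub (by simp)
    set P := hfin.toFinset with hPdef
    have hPS : ∀ x, x ∈ P ↔ x ∈ S := fun x => hfin.mem_toFinset
    have hL : 0 < 1 / ε + 2 * r := by positivity
    have hpack : IsPeriodicPacking K (1 / ε + 2 * r) P := by
      refine ⟨hL, ?_⟩
      intro p hp q hq z hz
      rw [hPS] at hp hq
      by_cases hz0 : z = 0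
      · subst hz0
        have hpq : p ≠ q := by
          rcases hz with hz | hz
          · exact hz
          · exact absurd rfl hz
        have := hSd hp hq hpq
        simpa using this
      · obtain ⟨i, hi⟩ : ∃ i, z i ≠ 0 := by
          by_contra hcon
          push Not at hcon
          exact hz0 (funext hcon)
        rw [Set.disjoint_left]
        rintro w ⟨k, hk, rfl⟩ ⟨k', hk', he⟩
        have he' := congrFun he i
        simp only [Pi.add_apply, Pi.smul_apply, smul_eq_mul, one_mul] at he'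
        have h1 := abs_lt.1 (hr k hk i)
        have h2 := abs_lt.1 (hr k' hk' i)
        have hp' := hSE hp
        have hq' := hSE hq
        simp only [box, Set.mem_pi, Set.mem_univ, forall_true_left, Set.mem_Icc] at hp' hq'
        have h3 := hp' i
        have h4 := hq' i
        rcases lt_or_gt_of_ne hi with hlt | hgt
        · have : (z i : ℝ) ≤ -1 := by exact_mod_cast Int.le_sub_one_of_lt hlt
          nlinarith
        · have : (1 : ℝ) ≤ z i := by exact_mod_cast hgt
          nlinarith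
    have hD : (P.card : ℝ) * (volume K).toReal / (1 / ε + 2 * r) ^ n ≤ packingDensity K :=
      le_csSup (bddAbove_densities h) ⟨_, P, hpack, rfl⟩
    have hcv : c * (1 / ε) ^ n ≤ P.card * (volume K).toReal := by
      have e1 : ∑' x : S, volume (copy K (x : Rn n) 1) = P.card * volume K := by
        simp only [h.vol_copy _ zero_le_one, one_pow, ENNReal.ofReal_one, one_mul]
        have : Fintype S := hfin.fintype
        rw [tsum_fintype, Finset.sum_const, nsmul_eq_mul, hPdef, Finset.card_univ,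
          ← Set.toFinset_card]
        congr 3
        ext x
        simp
      rw [e1, box_vol n hR.le] at hSv
      have h3 := ENNReal.toReal_mono (ENNReal.mul_ne_top (ENNReal.natCast_ne_top _)
        h.vol_lt_top.ne) hSv
      rw [ENNReal.toReal_mul, ENNReal.toReal_mul, ENNReal.toReal_natCast,
        ENNReal.toReal_ofReal (by positivity), ENNReal.toReal_ofReal (by positivity)] at h3
      exact h3
    rw [div_le_iff₀ (by positivity)] at hD
    have h6 : (1 / ε + 2 * r) ^ n = (1 + 2 * r * ε) ^ n * (1 / ε) ^ n := by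
      rw [← mul_pow]
      congr 1
      field_simp
    rw [h6] at hD
    have h7 : 0 < (1 / ε) ^ n := by positivity
    have h8 : c * (1 / ε) ^ n ≤ (packingDensity K * (1 + 2 * r * ε) ^ n) * (1 / ε) ^ n := by
      linarith
    exact le_of_mul_le_mul_right h8 h7
  have := le_of_forall_pos (by fun_prop) key
  simpa using this



lemma finish {n : ℕ} {K : Set (Rn n)} (h : IsSymBody K) {E : Set (Rn n)} {d : Rn n → ℝ}
    (hd : ∀ x ∈ E, 0 < d x) (hE : volume E ≠ ⊤) {c : ℝ} (hc : 0 ≤ c) (X : Finset (Rn n))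
    (hXE : ∀ x ∈ X, x ∈ E)
    (hpair : ∀ x ∈ X, ∀ y ∈ X, x ≠ y → d x + d y ≤ gauge K (x - y))
    (hv : c * (volume E).toReal ≤ ∑ x ∈ X, d x ^ n * (volume K).toReal) :
    ∃ S : Set (Rn n), S ⊆ E ∧ S.Countable ∧ S.PairwiseDisjoint (fun x => copy K x (d x)) ∧
      ENNReal.ofReal c * volume E ≤ ∑' x : S, volume (copy K x (d x)) := by
  refine ⟨X, hXE, X.countable_toSet, ?_, ?_⟩
  · intro x hx y hy hne
    exact h.disjoint_of (hd x (hXE x hx)) (hd y (hXE y hy)) (hpair x hx y hy hne)
  · have e1 : ∑' x : (X : Set (Rn n)), volume (copy K (x : Rn n) (d x)) =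
        ∑ x ∈ X, volume (copy K x (d x)) :=
      Finset.tsum_subtype' X (fun x => volume (copy K x (d x)))
    rw [e1]
    have e2 : ∑ x ∈ X, volume (copy K x (d x)) =
        ENNReal.ofReal (∑ x ∈ X, d x ^ n * (volume K).toReal) := by
      rw [ENNReal.ofReal_sum_of_nonneg]
      · refine Finset.sum_congr rfl fun x hx => ?_
        have hdx := (hd x (hXE x hx)).le
        rw [h.vol_copy x hdx, ENNReal.ofReal_mul (by positivity),
          ENNReal.ofReal_toReal h.vol_lt_top.ne]
      · intro x hx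
        have hdx := (hd x (hXE x hx)).le
        have : 0 ≤ (volume K).toReal := ENNReal.toReal_nonneg
        positivity
    rw [e2]
    calc ENNReal.ofReal c * volume E = ENNReal.ofReal c * ENNReal.ofReal (volume E).toReal := by
          rw [ENNReal.ofReal_toReal hE]
      _ = ENNReal.ofReal (c * (volume E).toReal) := (ENNReal.ofReal_mul hc).symm
      _ ≤ _ := ENNReal.ofReal_le_ofReal hv

/-- The number of residue classes of scales. -/
noncomputable def M (n : ℕ) : ℕ := ⌈((n : ℝ) + 1) * Real.log (n + 1)⌉₊ + 1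

lemma rho_pow_M {n : ℕ} (hn : 1 ≤ n) :
    ((n : ℝ) + 1) * (1 + 1 / (n : ℝ)) ≤ (1 + 1 / (n : ℝ)) ^ (M n) := by
  have hn0 : (0 : ℝ) < n := by exact_mod_cast hn
  have h1 : (1 + 1 / (n : ℝ))⁻¹ ≤ Real.exp (-(1 / ((n : ℝ) + 1))) := by
    have h2 := Real.add_one_le_exp (-(1 / ((n : ℝ) + 1)))
    have h3 : (1 + 1 / (n : ℝ))⁻¹ = -(1 / ((n : ℝ) + 1)) + 1 := by
      field_simp
      ring
    rw [h3]
    exact h2
  have h4 : Real.exp (1 / ((n : ℝ) + 1)) ≤ 1 + 1 / (n : ℝ) := by
    rw [Real.exp_neg] at h1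
    have hpos : (0 : ℝ) < 1 + 1 / (n : ℝ) := by positivity
    exact (inv_le_inv₀ hpos (Real.exp_pos _)).1 h1
  have h5 : (n : ℝ) + 1 ≤ (1 + 1 / (n : ℝ)) ^ ⌈((n : ℝ) + 1) * Real.log (n + 1)⌉₊ := by
    calc (n : ℝ) + 1 = Real.exp (Real.log (n + 1)) := (Real.exp_log (by positivity)).symm
      _ ≤ Real.exp ((⌈((n : ℝ) + 1) * Real.log (n + 1)⌉₊ : ℝ) * (1 / ((n : ℝ) + 1))) := by
          apply Real.exp_le_exp.2
          have := Nat.le_ceil (((n : ℝ) + 1) * Real.log (n + 1))
          rw [mul_one_div, le_div_iff₀ (by positivity)]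
          linarith
      _ = (Real.exp (1 / ((n : ℝ) + 1))) ^ ⌈((n : ℝ) + 1) * Real.log (n + 1)⌉₊ := by
          rw [Real.exp_nat_mul]
      _ ≤ _ := by gcongr
  rw [M, pow_succ]
  gcongr

lemma rho_pow_n {n : ℕ} (hn : 1 ≤ n) : (1 + 1 / (n : ℝ)) ^ n ≤ 2.7183 := by
  have hn0 : (0 : ℝ) < n := by exact_mod_cast hn
  have h1 := Real.add_one_le_exp (1 / (n : ℝ))
  calc (1 + 1 / (n : ℝ)) ^ n ≤ (Real.exp (1 / (n : ℝ))) ^ n := by
        gcongr; linarith
    _ = Real.exp 1 := by rw [← Real.exp_nat_mul]; congr 1; field_simp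
    _ ≤ 2.7183 := by have := Real.exp_one_lt_d9; norm_num at this ⊢; linarith

lemma eps_pow_n {n : ℕ} (hn : 1 ≤ n) : (1 + 1 / (11 * (n : ℝ))) ^ n ≤ 1.1 := by
  have hn0 : (0 : ℝ) < n := by exact_mod_cast hn
  have h1 := Real.add_one_le_exp (1 / (11 * (n : ℝ)))
  calc (1 + 1 / (11 * (n : ℝ))) ^ n ≤ (Real.exp (1 / (11 * (n : ℝ)))) ^ n := by
        gcongr; linarith
    _ = Real.exp (1 / 11) := by rw [← Real.exp_nat_mul]; congr 1; field_simp
    _ ≤ 1.1 := by
        have h2 := Real.add_one_le_exp (-(1 / 11 : ℝ))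
        rw [Real.exp_neg] at h2
        have h3 := Real.exp_pos (1 / 11)
        have h4 : (10 / 11 : ℝ) * Real.exp (1 / 11) ≤ 1 := by
          calc (10 / 11 : ℝ) * Real.exp (1 / 11)
              ≤ (Real.exp (1 / 11))⁻¹ * Real.exp (1 / 11) := by
                apply mul_le_mul_of_nonneg_right _ h3.le
                linarith
            _ = 1 := inv_mul_cancel₀ h3.ne'
        linarith

/-- The enlarged copies of the sets chosen so far. -/
def U {n : ℕ} (K : Set (Rn n)) (d : Rn n → ℝ) (X : Finset (Rn n)) : Set (Rn n) :=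
  ⋃ x ∈ X, copy K x ((1 + 1 / (n : ℝ)) * d x)

lemma U_vol {n : ℕ} {K : Set (Rn n)} (h : IsSymBody K) {E : Set (Rn n)} {d : Rn n → ℝ}
    (hd : ∀ x ∈ E, 0 < d x) (X : Finset (Rn n)) (hXE : ∀ x ∈ X, x ∈ E) :
    (volume (U K d X)).toReal ≤
      (1 + 1 / (n : ℝ)) ^ n * ∑ x ∈ X, d x ^ n * (volume K).toReal := by
  have h1 : volume (U K d X) ≤ ∑ x ∈ X, volume (copy K x ((1 + 1 / (n : ℝ)) * d x)) :=
    measure_biUnion_finset_le _ _
  have h2 : ∑ x ∈ X, volume (copy K x ((1 + 1 / (n : ℝ)) * d x)) =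
      ENNReal.ofReal ((1 + 1 / (n : ℝ)) ^ n * ∑ x ∈ X, d x ^ n * (volume K).toReal) := by
    rw [Finset.mul_sum, ENNReal.ofReal_sum_of_nonneg]
    · refine Finset.sum_congr rfl fun x hx => ?_
      have hdx := (hd x (hXE x hx)).le
      have e : (1 + 1 / (n : ℝ)) ^ n * (d x ^ n * (volume K).toReal) =
          ((1 + 1 / (n : ℝ)) ^ n * d x ^ n) * (volume K).toReal := by ring
      rw [h.vol_copy x (by positivity), mul_pow, e,
        ENNReal.ofReal_mul (q := (volume K).toReal) (by positivity),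
        ENNReal.ofReal_toReal h.vol_lt_top.ne]
    · intro x hx
      have hdx := (hd x (hXE x hx)).le
      have : 0 ≤ (volume K).toReal := ENNReal.toReal_nonneg
      positivity
  rw [h2] at h1
  have h3 := ENNReal.toReal_mono ENNReal.ofReal_ne_top h1
  rwa [ENNReal.toReal_ofReal] at h3
  have : 0 ≤ (volume K).toReal := ENNReal.toReal_nonneg
  refine mul_nonneg (by positivity) (Finset.sum_nonneg fun x hx => ?_)
  have hdx := (hd x (hXE x hx)).le
  positivity

lemma U_open {n : ℕ} {K : Set (Rn n)} (h : IsSymBody K) {E : Set (Rn n)} {d : Rn n → ℝ}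
    (hd : ∀ x ∈ E, 0 < d x) (X : Finset (Rn n)) (hXE : ∀ x ∈ X, x ∈ E) : IsOpen (U K d X) := by
  refine isOpen_biUnion fun x hx => h.copy_open x ?_
  have hdx := hd x (hXE x hx)
  positivity

/-- One step of the greedy choice: all radii of the new points lie in `(s / ρ, s]`, all old
radii are at least `(n + 1) s`. -/
lemma step {n : ℕ} (hn : 1 ≤ n) {K : Set (Rn n)} (h : IsSymBody K) {L : ℝ} {P : Finset (Rn n)}
    (hP : IsPeriodicPacking K L P) {E : Set (Rn n)} (hE : IsCompact E) {d : Rn n → ℝ}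
    (hd : ∀ x ∈ E, 0 < d x) (X : Finset (Rn n)) (hXE : ∀ x ∈ X, x ∈ E)
    (hpair : ∀ x ∈ X, ∀ y ∈ X, x ≠ y → d x + d y ≤ gauge K (x - y))
    {s : ℝ} (hs : 0 < s) (hbig : ∀ x ∈ X, ((n : ℝ) + 1) * s ≤ d x)
    (G : Set (Rn n)) (hGE : G ⊆ E) (hG1 : ∀ x ∈ G, d x ≤ s)
    (hG2 : ∀ x ∈ G, s / (1 + 1 / (n : ℝ)) ≤ d x) :
    ∃ X' : Finset (Rn n), X ⊆ X' ∧ (∀ x ∈ X', x ∈ E) ∧
      (∀ x ∈ X', ∀ y ∈ X', x ≠ y → d x + d y ≤ gauge K (x - y)) ∧
      (∀ x ∈ X', x ∈ X ∨ s / (1 + 1 / (n : ℝ)) ≤ d x) ∧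
      ((P.card : ℝ) * (volume K).toReal / L ^ n) *
          (volume (closure G \ U K d X)).toReal +
        (1.1 * (1 + 1 / (n : ℝ)) ^ n) * ∑ x ∈ X, d x ^ n * (volume K).toReal ≤
        (1.1 * (1 + 1 / (n : ℝ)) ^ n) * ∑ x ∈ X', d x ^ n * (volume K).toReal := by
  classical
  have hn0 : (0 : ℝ) < n := by exact_mod_cast hn
  have hL := hP.1
  have hV : 0 ≤ (volume K).toReal := ENNReal.toReal_nonneg
  have hcl : closure G ⊆ E := hE.isClosed.closure_subset_iff.2 hGE
  set ε : ℝ := 1 / (11 * n) with hε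
  have hε0 : 0 < ε := by positivity
  have hεn : ε ≤ 1 / n := by
    rw [hε]
    apply one_div_le_one_div_of_le hn0
    linarith
  have hFm : MeasurableSet (closure G \ U K d X) :=
    isClosed_closure.measurableSet.diff (U_open h hd X hXE).measurableSet
  have hFb : Bornology.IsBounded (closure G \ U K d X) :=
    hE.isBounded.subset (Set.sdiff_subset.trans hcl)
  obtain ⟨Y, hY1, hY2, hY3⟩ := averaging h hP hFm hFb (s := (1 + ε) * s) (by positivity)
  have hex : ∀ y ∈ Y, ∃ x ∈ G, gauge K (y - x) < ε * s := by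
    intro y hy
    have hyc : y ∈ closure G := (hY1 y hy).1
    have hεs : 0 < ε * s := by positivity
    rw [mem_closure_iff] at hyc
    obtain ⟨x, hx1, hx2⟩ := hyc (copy K y (ε * s)) (h.copy_open y hεs)
      ((h.mem_copy hεs).2 (by rw [sub_self, gauge_zero]; exact hεs))
    refine ⟨x, hx2, ?_⟩
    rw [h.gauge_comm]
    exact (h.mem_copy hεs).1 hx1
  choose! f hf1 hf2 using hex
  have hff : ∀ y ∈ Y, ∀ y' ∈ Y, y ≠ y' → 2 * s ≤ gauge K (f y - f y') := by
    intro y hy y' hy' hne
    have h1 := hY2 y hy y' hy' hne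
    have h2 := h.gauge_tri y (f y) y'
    have h3 := h.gauge_tri (f y) (f y') y'
    have h4 := hf2 y hy
    have h5 := hf2 y' hy'
    rw [h.gauge_comm] at h5
    nlinarith
  have hxf : ∀ x ∈ X, ∀ y ∈ Y, d x + d (f y) ≤ gauge K (x - f y) := by
    intro x hx y hy
    have h1 : (1 + 1 / (n : ℝ)) * d x ≤ gauge K (y - x) := by
      by_contra hc
      push Not at hc
      have hy2 := (hY1 y hy).2
      apply hy2
      refine Set.mem_biUnion hx ?_
      rw [h.mem_copy]
      · exact hc
      · have hdx := hd x (hXE x hx)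
        positivity
    have h2 := h.gauge_tri y (f y) x
    have h3 := hf2 y hy
    have h4 := hG1 _ (hf1 y hy)
    have h5 := hbig x hx
    rw [h.gauge_comm x (f y)]
    have h6 : s + 1 / n * s ≤ 1 / n * d x := by
      have : 1 / (n : ℝ) * (((n : ℝ) + 1) * s) ≤ 1 / n * d x := by gcongr
      have e : 1 / (n : ℝ) * (((n : ℝ) + 1) * s) = s + 1 / n * s := by field_simp
      linarith
    have h7 : ε * s ≤ 1 / n * s := by gcongr
    nlinarith
  have hinj : Set.InjOn f Y := by
    intro y hy y' hy' he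
    by_contra hne
    have := hff y hy y' hy' hne
    rw [he, sub_self, gauge_zero] at this
    linarith
  refine ⟨X ∪ Y.image f, Finset.subset_union_left, ?_, ?_, ?_, ?_⟩
  · intro x hx
    rw [Finset.mem_union, Finset.mem_image] at hx
    rcases hx with hx | ⟨y, hy, rfl⟩
    · exact hXE x hx
    · exact hGE (hf1 y hy)
  · intro x hx y hy hne
    rw [Finset.mem_union, Finset.mem_image] at hx hy
    rcases hx with hx | ⟨u, hu, rfl⟩ <;> rcases hy with hy | ⟨v, hv, rfl⟩
    · exact hpair x hx y hy hne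
    · exact hxf x hx v hv
    · rw [h.gauge_comm, add_comm]
      exact hxf y hy u hu
    · have huv : u ≠ v := fun e => hne (by rw [e])
      have h1 := hff u hu v hv huv
      have h2 := hG1 _ (hf1 u hu)
      have h3 := hG1 _ (hf1 v hv)
      linarith
  · intro x hx
    rw [Finset.mem_union, Finset.mem_image] at hx
    rcases hx with hx | ⟨y, hy, rfl⟩
    · exact Or.inl hx
    · exact Or.inr (hG2 _ (hf1 y hy))
  · have hdisj : Disjoint X (Y.image f) := by
      rw [Finset.disjoint_left]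
      intro x hx hx'
      rw [Finset.mem_image] at hx'
      obtain ⟨y, hy, rfl⟩ := hx'
      have h1 := hxf _ hx y hy
      rw [sub_self, gauge_zero] at h1
      have := hd _ (hXE _ hx)
      linarith
    rw [Finset.sum_union hdisj, Finset.sum_image hinj, mul_add]
    have hρ : (0 : ℝ) < 1 + 1 / (n : ℝ) := by positivity
    have hsum : (Y.card : ℝ) * ((s / (1 + 1 / (n : ℝ))) ^ n * (volume K).toReal) ≤
        ∑ y ∈ Y, d (f y) ^ n * (volume K).toReal := by
      rw [← nsmul_eq_mul, ← Finset.sum_const]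
      refine Finset.sum_le_sum fun y hy => ?_
      have := hG2 _ (hf1 y hy)
      gcongr
    have he := eps_pow_n hn
    have hmain : ((P.card : ℝ) * (volume K).toReal / L ^ n) *
        (volume (closure G \ U K d X)).toReal ≤
        (1.1 * (1 + 1 / (n : ℝ)) ^ n) *
          ((Y.card : ℝ) * ((s / (1 + 1 / (n : ℝ))) ^ n * (volume K).toReal)) := by
      calc ((P.card : ℝ) * (volume K).toReal / L ^ n) *
            (volume (closure G \ U K d X)).toReal
          = ((P.card : ℝ) * (volume (closure G \ U K d X)).toReal) *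
              ((volume K).toReal / L ^ n) := by ring
        _ ≤ (Y.card * ((1 + ε) * s * L) ^ n) * ((volume K).toReal / L ^ n) := by
            apply mul_le_mul_of_nonneg_right hY3
            positivity
        _ = (1 + ε) ^ n * (Y.card * (s ^ n * (volume K).toReal)) := by
            rw [mul_pow, mul_pow]
            field_simp
        _ ≤ 1.1 * (Y.card * (s ^ n * (volume K).toReal)) := by
            apply mul_le_mul_of_nonneg_right he
            positivity
        _ = _ := by
            rw [div_pow]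
            field_simp
    have hb : 0 ≤ 1.1 * (1 + 1 / (n : ℝ)) ^ n := by positivity
    have := mul_le_mul_of_nonneg_left hsum hb
    linarith

/-- The points of `E` whose radius lies in the scale `k`. -/
def G {n : ℕ} (E : Set (Rn n)) (d : Rn n → ℝ) (B : ℝ) (k : ℕ) : Set (Rn n) :=
  {x | x ∈ E ∧ B / (1 + 1 / (n : ℝ)) ^ (k + 1) < d x ∧ d x ≤ B / (1 + 1 / (n : ℝ)) ^ k}

lemma exists_scale {n : ℕ} (hn : 1 ≤ n) {E : Set (Rn n)} {d : Rn n → ℝ}
    (hd : ∀ x ∈ E, 0 < d x) {B : ℝ} (hB : ∀ x ∈ E, d x ≤ B) {x : Rn n} (hx : x ∈ E) :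
    ∃ k, x ∈ G E d B k := by
  classical
  have hn0 : (0 : ℝ) < n := by exact_mod_cast hn
  have hρ : (1 : ℝ) < 1 + 1 / (n : ℝ) := by
    have : 0 < 1 / (n : ℝ) := by positivity
    linarith
  have hdx := hd x hx
  have hBx := hB x hx
  have hex : ∃ k : ℕ, B / (1 + 1 / (n : ℝ)) ^ (k + 1) < d x := by
    obtain ⟨k, hk⟩ := pow_unbounded_of_one_lt (B / d x) hρ
    refine ⟨k, ?_⟩
    rw [div_lt_iff₀ hdx] at hk
    rw [div_lt_iff₀ (by positivity)]
    have : (1 + 1 / (n : ℝ)) ^ k ≤ (1 + 1 / (n : ℝ)) ^ (k + 1) :=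
      pow_le_pow_right₀ hρ.le (Nat.le_succ k)
    nlinarith
  refine ⟨Nat.find hex, hx, Nat.find_spec hex, ?_⟩
  rcases Nat.eq_zero_or_pos (Nat.find hex) with h0 | hpos
  · rw [h0]
    simpa using hBx
  · obtain ⟨k, hk⟩ := Nat.exists_eq_succ_of_ne_zero hpos.ne'
    have := Nat.find_min hex (m := k) (by rw [hk]; exact Nat.lt_succ_self k)
    push Not at this
    rw [hk]
    exact this

lemma greedy {n : ℕ} (hn : 1 ≤ n) {K : Set (Rn n)} (h : IsSymBody K) {L : ℝ} {P : Finset (Rn n)}
    (hP : IsPeriodicPacking K L P) {E : Set (Rn n)} (hE : IsCompact E) {d : Rn n → ℝ}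
    (hd : ∀ x ∈ E, 0 < d x) {B : ℝ} (hB0 : 0 < B) (j : ℕ) (N : ℕ) :
    ∃ X : Finset (Rn n), (∀ x ∈ X, x ∈ E) ∧
      (∀ x ∈ X, ∀ y ∈ X, x ≠ y → d x + d y ≤ gauge K (x - y)) ∧
      (∀ x ∈ X, ((n : ℝ) + 1) * (B / (1 + 1 / (n : ℝ)) ^ (j + M n * N)) ≤ d x) ∧
      ((P.card : ℝ) * (volume K).toReal / L ^ n) *
          (volume ((⋃ i ∈ Finset.range N, closure (G E d B (j + M n * i))) \ U K d X)).toReal ≤
        (1.1 * (1 + 1 / (n : ℝ)) ^ n) * ∑ x ∈ X, d x ^ n * (volume K).toReal := by
  have hn0 : (0 : ℝ) < n := by exact_mod_cast hn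
  have hρ : (1 : ℝ) < 1 + 1 / (n : ℝ) := by
    have : 0 < 1 / (n : ℝ) := by positivity
    linarith
  have hρ0 : (0 : ℝ) < 1 + 1 / (n : ℝ) := by positivity
  have hL := hP.1
  induction N with
  | zero =>
    refine ⟨∅, by simp, by simp, by simp, by simp⟩
  | succ N ih =>
    obtain ⟨X, hXE, hpair, hbig, hv⟩ := ih
    have hs : 0 < B / (1 + 1 / (n : ℝ)) ^ (j + M n * N) := by positivity
    obtain ⟨X', hXX', hX'E, hpair', hbig', hv'⟩ := step hn h hP hE hd X hXE hpair hs hbig
      (G E d B (j + M n * N)) (fun x hx => hx.1) (fun x hx => hx.2.2) (fun x hx => by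
        have := hx.2.1
        rw [pow_succ, ← div_div] at this
        exact this.le)
    refine ⟨X', hX'E, hpair', ?_, ?_⟩
    · have hM := rho_pow_M hn
      have e : (1 + 1 / (n : ℝ)) ^ (j + M n * (N + 1)) =
          (1 + 1 / (n : ℝ)) ^ (j + M n * N) * (1 + 1 / (n : ℝ)) ^ (M n) := by
        rw [← pow_add]; congr 1; ring
      have hkey : ((n : ℝ) + 1) * (B / (1 + 1 / (n : ℝ)) ^ (j + M n * (N + 1))) ≤
          (B / (1 + 1 / (n : ℝ)) ^ (j + M n * N)) / (1 + 1 / (n : ℝ)) := by
        rw [e, ← div_div, le_div_iff₀ hρ0]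
        have hM0 : 0 < (1 + 1 / (n : ℝ)) ^ (M n) := by positivity
        calc ((n : ℝ) + 1) * (B / (1 + 1 / (n : ℝ)) ^ (j + M n * N) /
                (1 + 1 / (n : ℝ)) ^ (M n)) * (1 + 1 / (n : ℝ))
            = (((n : ℝ) + 1) * (1 + 1 / (n : ℝ))) / (1 + 1 / (n : ℝ)) ^ (M n) *
                (B / (1 + 1 / (n : ℝ)) ^ (j + M n * N)) := by ring
          _ ≤ 1 * (B / (1 + 1 / (n : ℝ)) ^ (j + M n * N)) := by
              apply mul_le_mul_of_nonneg_right _ hs.le
              rw [div_le_one hM0]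
              exact hM
          _ = _ := one_mul _
      intro x hx
      rcases hbig' x hx with hx | hx
      · have h1 := hbig x hx
        have h2 : (B / (1 + 1 / (n : ℝ)) ^ (j + M n * N)) / (1 + 1 / (n : ℝ)) ≤
            ((n : ℝ) + 1) * (B / (1 + 1 / (n : ℝ)) ^ (j + M n * N)) := by
          rw [div_le_iff₀ hρ0]
          have : 1 ≤ ((n : ℝ) + 1) * (1 + 1 / (n : ℝ)) := by nlinarith
          nlinarith
        linarith
      · linarith
    · have hsub : (⋃ i ∈ Finset.range (N + 1), closure (G E d B (j + M n * i))) \ U K d X' ⊆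
          ((⋃ i ∈ Finset.range N, closure (G E d B (j + M n * i))) \ U K d X) ∪
            (closure (G E d B (j + M n * N)) \ U K d X) := by
        have hU : U K d X ⊆ U K d X' :=
          Set.biUnion_subset_biUnion_left (fun x hx => hXX' hx)
        rintro y ⟨hy1, hy2⟩
        simp only [Set.mem_iUnion, Finset.mem_range, exists_prop] at hy1
        obtain ⟨i, hi, hyi⟩ := hy1
        have hyU : y ∉ U K d X := fun hc => hy2 (hU hc)
        rcases Nat.lt_succ_iff_lt_or_eq.1 hi with hlt | heq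
        · left
          refine ⟨?_, hyU⟩
          simp only [Set.mem_iUnion, Finset.mem_range, exists_prop]
          exact ⟨i, hlt, hyi⟩
        · right
          subst heq
          exact ⟨hyi, hyU⟩
      have hclE : ∀ k, closure (G E d B k) ⊆ E := fun k =>
        hE.isClosed.closure_subset_iff.2 (fun x hx => hx.1)
      have hEfin : volume E ≠ ⊤ := hE.measure_lt_top.ne
      have hfin1 : volume ((⋃ i ∈ Finset.range N, closure (G E d B (j + M n * i))) \ U K d X) ≠ ⊤ :=
        ne_top_of_le_ne_top hEfin (measure_mono (Set.sdiff_subset.trans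
          (Set.iUnion₂_subset fun i _ => hclE _)))
      have hfin2 : volume (closure (G E d B (j + M n * N)) \ U K d X) ≠ ⊤ :=
        ne_top_of_le_ne_top hEfin (measure_mono (Set.sdiff_subset.trans (hclE _)))
      have hmeas : (volume ((⋃ i ∈ Finset.range (N + 1), closure (G E d B (j + M n * i))) \
          U K d X')).toReal ≤
          (volume ((⋃ i ∈ Finset.range N, closure (G E d B (j + M n * i))) \ U K d X)).toReal +
          (volume (closure (G E d B (j + M n * N)) \ U K d X)).toReal := by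
        rw [← ENNReal.toReal_add hfin1 hfin2]
        exact ENNReal.toReal_mono (ENNReal.add_ne_top.2 ⟨hfin1, hfin2⟩)
          ((measure_mono hsub).trans (measure_union_le _ _))
      have hD : 0 ≤ (P.card : ℝ) * (volume K).toReal / L ^ n := by
        have : 0 ≤ (volume K).toReal := ENNReal.toReal_nonneg
        positivity
      have := mul_le_mul_of_nonneg_left hmeas hD
      rw [mul_add] at this
      linarith

lemma lower {n : ℕ} (hn : 1 ≤ n) {K : Set (Rn n)} (h : IsSymBody K) {L : ℝ} {P : Finset (Rn n)}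
    (hP : IsPeriodicPacking K L P) :
    Admissible K (((P.card : ℝ) * (volume K).toReal / L ^ n) / (6 * (M n : ℝ))) := by
  classical
  intro E d hE hd
  set D : ℝ := (P.card : ℝ) * (volume K).toReal / L ^ n with hDdef
  set c : ℝ := D / (6 * (M n : ℝ)) with hc
  have hn0 : (0 : ℝ) < n := by exact_mod_cast hn
  have hL := hP.1
  have hV : 0 < (volume K).toReal := ENNReal.toReal_pos h.vol_pos.ne' h.vol_lt_top.ne
  have hD0 : 0 ≤ D := by positivity
  have hMpos : 0 < M n := Nat.succ_pos _
  have hM0 : (0 : ℝ) < M n := by exact_mod_cast hMpos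
  have hc0 : 0 ≤ c := by positivity
  have hD1 : D ≤ 1 := by
    rw [hDdef, div_le_one (by positivity)]
    exact density_le_one h hP
  have hEfin : volume E ≠ ⊤ := hE.measure_lt_top.ne
  set vE : ℝ := (volume E).toReal with hvE
  have hvE0 : 0 ≤ vE := ENNReal.toReal_nonneg
  by_cases hzero : D = 0 ∨ vE = 0
  · refine finish h hd hEfin hc0 ∅ (by simp) (by simp) ?_
    have : c * (volume E).toReal = 0 := by
      rcases hzero with h0 | h0
      · rw [hc, h0]; simp
      · rw [← hvE, h0]; simp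
    rw [this]
    simp
  push Not at hzero
  have hDpos : 0 < D := lt_of_le_of_ne hD0 (Ne.symm hzero.1)
  have hvEpos : 0 < vE := lt_of_le_of_ne hvE0 (Ne.symm hzero.2)
  by_cases hbig : ∃ x ∈ E, c * vE ≤ d x ^ n * (volume K).toReal
  · obtain ⟨x, hx, hxv⟩ := hbig
    refine finish h hd hEfin hc0 {x} (by simpa using hx) ?_ (by simpa using hxv)
    intro a ha b hb hab
    rw [Finset.mem_singleton] at ha hb
    exact absurd (ha.trans hb.symm) hab
  push Not at hbig
  obtain ⟨B, hB0, hB⟩ : ∃ B : ℝ, 0 < B ∧ ∀ x ∈ E, d x ≤ B := by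
    refine ⟨max 1 (c * vE / (volume K).toReal), by positivity, fun x hx => ?_⟩
    by_contra hcon
    push Not at hcon
    have h1 : 1 < d x := (le_max_left _ _).trans_lt hcon
    have h2 : c * vE / (volume K).toReal < d x := (le_max_right _ _).trans_lt hcon
    have h3 : d x ≤ d x ^ n := le_self_pow₀ h1.le (by omega)
    have h4 := hbig x hx
    rw [div_lt_iff₀ hV] at h2
    nlinarith
  -- the closed scale sets
  set F : ℕ → Set (Rn n) := fun k => closure (G E d B k) with hF
  have hclE : ∀ k, F k ⊆ E := fun k =>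
    hE.isClosed.closure_subset_iff.2 (fun x hx => hx.1)
  have hcov : E ⊆ ⋃ j ∈ Finset.range (M n), ⋃ i : ℕ, F (j + M n * i) := by
    intro x hx
    obtain ⟨k, hk⟩ := exists_scale hn hd hB hx
    refine Set.mem_biUnion (x := k % M n) (by simpa using Nat.mod_lt k hMpos) ?_
    refine Set.mem_iUnion.2 ⟨k / M n, ?_⟩
    rw [Nat.mod_add_div]
    exact subset_closure hk
  obtain ⟨j, -, hj⟩ : ∃ j ∈ Finset.range (M n),
      vE / M n ≤ (volume (⋃ i : ℕ, F (j + M n * i))).toReal := by
    by_contra hcon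
    push Not at hcon
    have h1 : volume E ≤ ∑ j ∈ Finset.range (M n), volume (⋃ i : ℕ, F (j + M n * i)) :=
      (measure_mono hcov).trans (measure_biUnion_finset_le _ _)
    have hfin : ∀ j ∈ Finset.range (M n), volume (⋃ i : ℕ, F (j + M n * i)) ≠ ⊤ := fun j _ =>
      ne_top_of_le_ne_top hEfin (measure_mono (Set.iUnion_subset fun i => hclE _))
    have h2 := ENNReal.toReal_mono (ENNReal.sum_ne_top.2 hfin) h1
    rw [ENNReal.toReal_sum hfin] at h2
    have h3 : ∑ j ∈ Finset.range (M n), (volume (⋃ i : ℕ, F (j + M n * i))).toReal <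
        ∑ j ∈ Finset.range (M n), vE / M n :=
      Finset.sum_lt_sum_of_nonempty ⟨0, by simpa using hMpos⟩ hcon
    rw [Finset.sum_const, Finset.card_range, nsmul_eq_mul, mul_div_cancel₀ _ hM0.ne'] at h3
    linarith
  -- truncation
  obtain ⟨N, hN⟩ : ∃ N : ℕ, 23 / 24 * (vE / M n) ≤
      (volume (⋃ i ∈ Finset.range N, F (j + M n * i))).toReal := by
    have hmono : Monotone (fun N : ℕ => ⋃ i ∈ Finset.range N, F (j + M n * i)) := by
      intro a b hab
      refine Set.biUnion_subset_biUnion_left ?_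
      intro i hi
      simp only [Finset.coe_range, Set.mem_Iio] at hi ⊢
      omega
    have hunion : (⋃ N : ℕ, ⋃ i ∈ Finset.range N, F (j + M n * i)) = ⋃ i : ℕ, F (j + M n * i) := by
      ext x
      simp only [Set.mem_iUnion, Finset.mem_range, exists_prop]
      constructor
      · rintro ⟨N, i, _, hi⟩
        exact ⟨i, hi⟩
      · rintro ⟨i, hi⟩
        exact ⟨i + 1, i, Nat.lt_succ_self i, hi⟩
    have htend := tendsto_measure_iUnion_atTop (μ := (volume : Measure (Rn n))) hmono
    rw [hunion] at htend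
    have hfin : volume (⋃ i : ℕ, F (j + M n * i)) ≠ ⊤ :=
      ne_top_of_le_ne_top hEfin (measure_mono (Set.iUnion_subset fun i => hclE _))
    have htend2 := (ENNReal.tendsto_toReal hfin).comp htend
    have hlt : 23 / 24 * (vE / M n) < (volume (⋃ i : ℕ, F (j + M n * i))).toReal := by
      have : 0 < vE / M n := by positivity
      linarith
    obtain ⟨N, hN⟩ := (htend2.eventually_const_lt hlt).exists
    exact ⟨N, hN.le⟩
  obtain ⟨X, hXE, hpair, -, hv⟩ := greedy hn h hP hE hd hB0 j N
  refine finish h hd hEfin hc0 X hXE hpair ?_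
  set v : ℝ := ∑ x ∈ X, d x ^ n * (volume K).toReal with hvdef
  have hv0 : 0 ≤ v := Finset.sum_nonneg fun x hx => by
    have := (hd x (hXE x hx)).le
    positivity
  have hU := U_vol h hd X hXE
  have hUfin : volume (U K d X) ≠ ⊤ := by
    refine ne_of_lt (lt_of_le_of_lt (measure_biUnion_finset_le _ _) ?_)
    refine ENNReal.sum_lt_top.2 fun x hx => ?_
    have := (hd x (hXE x hx)).le
    rw [h.vol_copy x (by positivity)]
    exact ENNReal.mul_lt_top ENNReal.ofReal_lt_top h.vol_lt_top
  have hsplit : (volume (⋃ i ∈ Finset.range N, F (j + M n * i))).toReal ≤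
      (volume ((⋃ i ∈ Finset.range N, F (j + M n * i)) \ U K d X)).toReal +
        (volume (U K d X)).toReal := by
    have hfin1 : volume ((⋃ i ∈ Finset.range N, F (j + M n * i)) \ U K d X) ≠ ⊤ :=
      ne_top_of_le_ne_top hEfin (measure_mono (Set.sdiff_subset.trans
        (Set.iUnion₂_subset fun i _ => hclE _)))
    rw [← ENNReal.toReal_add hfin1 hUfin]
    refine ENNReal.toReal_mono (ENNReal.add_ne_top.2 ⟨hfin1, hUfin⟩) ?_
    refine (measure_mono ?_).trans (measure_union_le _ _)
    intro x hx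
    by_cases hxU : x ∈ U K d X
    · exact Or.inr hxU
    · exact Or.inl ⟨hx, hxU⟩
  have hρn := rho_pow_n hn
  have h1 : D * (23 / 24 * (vE / M n)) ≤ 5.75 * v := by
    calc D * (23 / 24 * (vE / M n))
        ≤ D * ((volume ((⋃ i ∈ Finset.range N, F (j + M n * i)) \ U K d X)).toReal +
        (volume (U K d X)).toReal) := by
          apply mul_le_mul_of_nonneg_left _ hD0
          linarith
      _ = D * (volume ((⋃ i ∈ Finset.range N, F (j + M n * i)) \ U K d X)).toReal +
          D * (volume (U K d X)).toReal := mul_add _ _ _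
      _ ≤ (1.1 * (1 + 1 / (n : ℝ)) ^ n) * v + 1 * ((1 + 1 / (n : ℝ)) ^ n * v) := by
          refine add_le_add hv ?_
          exact mul_le_mul hD1 hU ENNReal.toReal_nonneg zero_le_one
      _ ≤ (1.1 * 2.7183) * v + 1 * (2.7183 * v) := by gcongr
      _ ≤ 5.75 * v := by nlinarith
  have h2 : c * vE = D * (23 / 24 * (vE / M n)) / 5.75 := by
    rw [hc]
    field_simp
    ring
  rw [← hvE, h2, div_le_iff₀ (by norm_num)]
  linarith



lemma zero_admissible {n : ℕ} (K : Set (Rn n)) : Admissible K 0 := by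
  intro E d _ _
  exact ⟨∅, by simp, by simp, by simp, by simp⟩

lemma covConst_bddAbove {n : ℕ} {K : Set (Rn n)} (h : IsSymBody K) :
    BddAbove {c : ℝ | 0 ≤ c ∧ Admissible K c} :=
  ⟨packingDensity K, fun _ hc => admissible_le h hc.1 hc.2⟩

lemma covConst_le {n : ℕ} {K : Set (Rn n)} (h : IsSymBody K) :
    covConst K ≤ packingDensity K :=
  csSup_le ⟨0, le_rfl, zero_admissible K⟩ (fun _ hc => admissible_le h hc.1 hc.2)

lemma density_le {n : ℕ} (hn : 1 ≤ n) {K : Set (Rn n)} (h : IsSymBody K) :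
    packingDensity K ≤ 6 * (M n : ℝ) * covConst K := by
  have hM0 : (0 : ℝ) < M n := by exact_mod_cast Nat.succ_pos _
  refine csSup_le ⟨0, 1, ∅, ⟨one_pos, by simp⟩, by simp⟩ ?_
  rintro D ⟨L, P, hP, rfl⟩
  have hL := hP.1
  have h1 := lower hn h hP
  have h2 : ((P.card : ℝ) * (volume K).toReal / L ^ n) / (6 * (M n : ℝ)) ≤ covConst K := by
    refine le_csSup (covConst_bddAbove h) ⟨?_, h1⟩
    have : 0 ≤ (volume K).toReal := ENNReal.toReal_nonneg
    positivity
  rw [div_le_iff₀ (by positivity)] at h2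
  linarith

/-- The open cube `(-1, 1)^n`. -/
def cube (n : ℕ) : Set (Rn n) := {x | ∀ i, |x i| < 1}

lemma cube_eq (n : ℕ) : cube n = Set.pi Set.univ (fun _ => Set.Ioo (-1 : ℝ) 1) := by
  ext x
  simp only [cube, Set.mem_ofPred_eq, Set.mem_pi, Set.mem_univ, forall_true_left, Set.mem_Ioo,
    abs_lt]

lemma cube_body (n : ℕ) : IsSymBody (cube n) where
  isOpen := by
    rw [cube_eq]
    exact isOpen_set_pi Set.finite_univ fun _ _ => isOpen_Ioo
  bounded := by
    rw [cube_eq]
    exact (isCompact_univ_pi fun _ => isCompact_Icc (a := (-1 : ℝ)) (b := 1)).isBounded.subset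
      (Set.pi_mono fun _ _ => Set.Ioo_subset_Icc_self)
  convex := by
    rw [cube_eq]
    exact convex_pi fun _ _ => convex_Ioo _ _
  symm := by
    intro x hx i
    have := hx i
    simpa using this
  nonempty := ⟨0, fun i => by simp⟩

lemma one_le_density_cube (n : ℕ) : 1 ≤ packingDensity (cube n) := by
  refine le_csSup (bddAbove_densities (cube_body n)) ⟨2, {0}, ⟨two_pos, ?_⟩, ?_⟩
  · intro p hp q hq z hz
    rw [Finset.mem_singleton] at hp hq
    subst hp hq
    have hz0 : z ≠ 0 := by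
      rcases hz with hz | hz
      · exact absurd rfl hz
      · exact hz
    rw [Set.disjoint_left]
    rintro w ⟨k, hk, rfl⟩ ⟨k', hk', he⟩
    apply hz0
    funext i
    have he' := congrFun he i
    simp only [Pi.add_apply, Pi.smul_apply, smul_eq_mul, one_mul, Pi.zero_apply, zero_add] at he'
    have h1 := abs_lt.1 (hk i)
    have h2 := abs_lt.1 (hk' i)
    have h3 : (z i : ℝ) < 1 := by linarith
    have h4 : (-1 : ℝ) < z i := by linarith
    have h5 : z i < 1 := by exact_mod_cast h3
    have h6 : -1 < z i := by exact_mod_cast h4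
    simp only [Pi.zero_apply]
    omega
  · rw [cube_eq, Real.volume_pi_Ioo]
    norm_num

/-- For every `n ≥ 1` and every open bounded symmetric convex `K` in `R^n`, the covering
constant `c(K)` and the translative packing density `Δ(K)` satisfy
`c(K) ≤ Δ(K) ≤ 6 (⌈(n+1) log (n+1)⌉ + 1) c(K)`; in particular
`c((-1,1)^n) ≥ 1 / (6 (⌈(n+1) log (n+1)⌉ + 1))`. -/
theorem result : ∀ n : ℕ, 1 ≤ n →
    (∀ K : Set (Rn n), IsSymBody K →
      covConst K ≤ packingDensity K ∧
      packingDensity K ≤ 6 * (⌈((n : ℝ) + 1) * Real.log (n + 1)⌉₊ + 1) * covConst K) ∧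
    1 / (6 * (⌈((n : ℝ) + 1) * Real.log (n + 1)⌉₊ + 1)) ≤ covConst (cube n) := by
  intro n hn
  have hM : (M n : ℝ) = (⌈((n : ℝ) + 1) * Real.log (n + 1)⌉₊ : ℝ) + 1 := by
    simp [M]
  have hM0 : (0 : ℝ) < M n := by exact_mod_cast Nat.succ_pos _
  rw [← hM]
  refine ⟨fun K h => ⟨covConst_le h, density_le hn h⟩, ?_⟩
  have h1 := density_le hn (cube_body n)
  have h2 := one_le_density_cube n
  rw [div_le_iff₀ (by positivity)]
  linarith

end Pool.Agent.Results.MP_9210c2_an.DensityComparison
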